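import Pool.Agent.R722.CA.MAIN
import Pool.Agent.R722.CA.UN
import Pool.Agent.R722.CA.CT
import Pool.Agent.R722.CA.PI
import Pool.Agent.R722.CA.PRE
import Pool.Agent.R722.CA.ADJ
import Pool.Agent.R722.CA.INV
import Pool.Agent.R722.CA.BUMP
import Pool.Agent.R722.CA.SW
import Pool.Agent.R722.CA.DIS
import Pool.Agent.R722.CA.EQ
import Pool.Agent.R874.TreeNoT2

/-!
# Continuous association schemes: (T1) versus (T2)

There is a continuous association scheme with (T1) and without (T2), and every commutative
continuous association scheme with (T1) has (T2).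
-/

set_option autoImplicit false

namespace Pool.Agent.Results.MP_3f01e7_al.T1VersusT2

open MeasureTheory Pool.R874.Assoc Pool.Agent.R722.CA

theorem commutative (X D : Type) [TopologicalSpace X] [MeasurableSpace X] [BorelSpace X]
    [TopologicalSpace D] [MeasurableSpace D] [BorelSpace D] [SecondCountableTopology X]
    [LocallyCompactSpace X] [T2Space X] [SecondCountableTopology D] [LocallyCompactSpace D]
    [T2Space D] [Nonempty X] (C : CAS X D) (hc : ∀ a b : D, C.H.conv a b = C.H.conv b a)
    (h : C.T1) : C.T2 := by
  have hpre : S_PRE := pre un ct fs pi_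
  have hadj : S_ADJ := adj hpre
  have hdis : S_DIS := dis hpre (bump un ct fs pi_ hpre) (sw hpre hadj)
  exact main hpre (inv_ un fs pi_ hpre) hdis (eq_ un fs pi_ hpre hadj hdis) X D C hc h

/-- There is a continuous association scheme with (T1) but not (T2); every commutative continuous
association scheme with (T1) has (T2). -/
theorem result :
    (∃ (X D : Type) (_ : TopologicalSpace X) (_ : MeasurableSpace X) (_ : BorelSpace X)
      (_ : TopologicalSpace D) (_ : MeasurableSpace D) (_ : BorelSpace D)
      (_ : SecondCountableTopology X) (_ : LocallyCompactSpace X) (_ : T2Space X)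
      (_ : SecondCountableTopology D) (_ : LocallyCompactSpace D) (_ : T2Space D) (C : CAS X D),
      C.T1 ∧ ¬ C.T2) ∧
    ∀ (X D : Type) [TopologicalSpace X] [MeasurableSpace X] [BorelSpace X]
      [TopologicalSpace D] [MeasurableSpace D] [BorelSpace D] [SecondCountableTopology X]
      [LocallyCompactSpace X] [T2Space X] [SecondCountableTopology D] [LocallyCompactSpace D]
      [T2Space D] [Nonempty X] (C : CAS X D), (∀ a b : D, C.H.conv a b = C.H.conv b a) →
      C.T1 → C.T2 :=
  ⟨⟨V, E, inferInstance, inferInstance, inferInstance, inferInstance, inferInstance,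
    inferInstance, inferInstance, inferInstance, inferInstance, inferInstance, inferInstance,
    inferInstance, SS.toCAS, SS.toCAS_T1, no_T2 _ rfl⟩,
    fun X D _ _ _ _ _ _ _ _ _ _ _ _ _ C hc h => commutative X D C hc h⟩

end Pool.Agent.Results.MP_3f01e7_al.T1VersusT2
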