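import Mathlib
import Pool.Agent.R874.TreeNoT2

namespace Pool.Agent.Results.MP_3f01e7_al.TreeT1NotT2

open Pool.R874.Assoc

/-- There is a continuous association scheme (on countable discrete spaces) which has property
(T1) but not property (T2). -/
theorem result : ∃ (X D : Type) (_ : TopologicalSpace X) (_ : MeasurableSpace X)
    (_ : BorelSpace X) (_ : TopologicalSpace D) (_ : MeasurableSpace D) (_ : BorelSpace D)
    (C : CAS X D), SecondCountableTopology X ∧ LocallyCompactSpace X ∧ T2Space X ∧
      SecondCountableTopology D ∧ LocallyCompactSpace D ∧ T2Space D ∧ C.T1 ∧ ¬ C.T2 :=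
  ⟨V, E, inferInstance, inferInstance, inferInstance, inferInstance, inferInstance, inferInstance,
    SS.toCAS, inferInstance, inferInstance, inferInstance, inferInstance, inferInstance,
    inferInstance, SS.toCAS_T1, no_T2 _ rfl⟩

end Pool.Agent.Results.MP_3f01e7_al.TreeT1NotT2
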